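import Pool.Agent.H23.RDD.Targets

set_option autoImplicit false

namespace Pool.Agent.H13.RDD

open Pool.Agent.H23.RDD Pool.Agent.H24.RD NumberField Height Finset Polynomial

theorem pf_TPF : T_LVB → T_TPF := by
  intro hLVB F Ω _ _ _ _ _ _ p hp r γ hγ n m N' K' hm hmn hN hK σ hσ
  have hp0 : 0 < p := hp.pos
  have hN0 : 0 < N' := Nat.pos_of_ne_zero fun h => hN (h ▸ dvd_zero p)
  have hK0 : 0 < K' := Nat.pos_of_dvd_of_pos hK hN0
  obtain ⟨-, hgal, -, -, -, -⟩ := hLVB F Ω r γ hγ (p ^ n * N') (p ^ m * K')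
    (by positivity) (by positivity)
  have := hgal
  have hnor : Normal F (Lv F Ω γ (p ^ n * N') (p ^ m * K')) := inferInstance
  have hc : ∀ y : Lv F Ω γ (p ^ n * N') (p ^ m * K'), σ (y : Ω) =
      ((σ.restrictNormal (Lv F Ω γ (p ^ n * N') (p ^ m * K')) y :
        Lv F Ω γ (p ^ n * N') (p ^ m * K')) : Ω) := by
    intro y
    exact (AlgEquiv.restrictNormal_commutes σ (Lv F Ω γ (p ^ n * N') (p ^ m * K')) y).symm
  have hgen1 : ∀ z : Ω, z ^ (p ^ n * N') = 1 →
      z ∈ Lv F Ω γ (p ^ n * N') (p ^ (m - 1) * K') := fun z hz =>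
    IntermediateField.subset_adjoin F _ (Or.inl hz)
  have hgen2 : ∀ (z : Ω) (i : Fin r), z ^ (p ^ (m - 1) * K') = algebraMap F Ω (γ i) →
      z ∈ Lv F Ω γ (p ^ n * N') (p ^ (m - 1) * K') := fun z i hz =>
    IntermediateField.subset_adjoin F _ (Or.inr ⟨i, hz⟩)
  have hfix : ∀ y : Lv F Ω γ (p ^ n * N') (p ^ m * K'),
      (y : Ω) ∈ Lv F Ω γ (p ^ n * N') (p ^ (m - 1) * K') →
      σ.restrictNormal (Lv F Ω γ (p ^ n * N') (p ^ m * K')) y = y := by
    intro y hy
    apply Subtype.ext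
    rw [← hc y]
    exact hσ _ hy
  refine ⟨σ.restrictNormal (Lv F Ω γ (p ^ n * N') (p ^ m * K')), ⟨?_, ?_⟩, hc⟩
  · rintro y (hy | ⟨i, hy⟩)
    · apply hfix
      apply hgen1
      have := congrArg (fun t : Lv F Ω γ (p ^ n * N') (p ^ m * K') => (t : Ω)) hy
      simpa using this
    · apply hfix
      have h1 : (y : Ω) ^ K' = algebraMap F Ω (γ i) := by
        have := congrArg (fun t : Lv F Ω γ (p ^ n * N') (p ^ m * K') => (t : Ω)) hy
        simpa using this
      obtain ⟨w, hw⟩ := IsAlgClosed.exists_pow_nat_eq (y : Ω) (pow_pos hp0 (m - 1))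
      rw [← hw]
      apply pow_mem
      apply hgen2 w i
      rw [pow_mul, hw, h1]
  · intro y i hy
    apply hfix
    have h1 : (y : Ω) ^ (p ^ (m - 1)) = algebraMap F Ω (γ i) := by
      have := congrArg (fun t : Lv F Ω γ (p ^ n * N') (p ^ m * K') => (t : Ω)) hy
      simpa using this
    obtain ⟨w, hw⟩ := IsAlgClosed.exists_pow_nat_eq (y : Ω) hK0
    rw [← hw]
    apply pow_mem
    apply hgen2 w i
    rw [mul_comm, pow_mul, hw, h1]

end Pool.Agent.H13.RDD
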